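import Pool.Agent.R545.Nl.Final

/-!
# For every fixed `k`, NLC-width at most `k` is recognisable in polynomial time

The definitions used in the statement:
* `nlcWidth G` (in `Pool.Agent.R545.Mw.Defs`): the least `k` such that `G` is isomorphic to the
  underlying graph of a `k`-labelled graph in the smallest class containing the single labelled
  vertices and closed under relabelling by a map of the labels and under the compositions
  `G ×_S H` (the disjoint union together with all edges between a vertex of `G` with label `a` and
  a vertex of `H` with label `b` where `(a, b) ∈ S`);
* `matGraph M` (in `Pool.Agent.H622R2.MatGraph`): the graph on `Fin M.length` with the (symmetrised,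
  diagonal ignored) Boolean adjacency matrix `M`;
* `InPP` (in `Pool.Agent.NPC.Classes`): the language of the codes of the inputs with the given
  property is decided by a polynomial-time Turing machine (in Mathlib's sense).
-/

namespace Pool.Agent.Results.MP_8b2ae4_lc.NlcWidthInP

open Pool.Agent.NPC Pool.Agent.H622R2 Pool.Agent.R545.Mw

/-- **`REC_k` is in `P` for every fixed `k`.** -/
theorem result : ∀ k : ℕ,
    InPP (fun M : List (List Bool) => nlcWidth (matGraph M) ≤ k) :=
  Pool.Agent.R545.Nl.nlc_inPP

end Pool.Agent.Results.MP_8b2ae4_lc.NlcWidthInP
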